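import Pool.Agent.Helper21.CT.KTN

/-!
MP_c75db0: typed programs in which a run with a thin interval of weights is ONE block (`expandX`),
and its soundness; everything else as in Helper21/CT/{KRN, KTK, KTM, KTN}.
-/

set_option autoImplicit false
set_option exponentiation.threshold 4000
noncomputable section
namespace Pool.Agent.Helper39.XP

open Pool.Agent.Helper90.C75 (Vt mulT avg wtT avg_add avg_const Mod)
open Pool.Agent.Helper90.KMT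
open Pool.Agent.Helper90.KMO (UU UU_pos zv cz andB_t)
open Pool.Agent.Helper17.KPT hiding Rb PI
open Pool.Agent.Helper17.PAK (sc nrm EncV NBz vpq)
open Pool.Agent.Helper86.C75 (Z)
open Pool.Agent.Helper86.CX (Hm ev Cx P9 VR SE andB BA CK CM ev_CK tst tsl)
open Pool.Agent.Helper86.CT (N3 DF Alg Rw VO Mo Qd KM Mc Mq BT Prog eN chP chE chO chR CE CO mkE mkR mkL
  mkO mkKM PE PO zipP kmOK Cls chOm chG chZ chX chCell clsOK mkCls mkQd qm2 qm3 qf SM R1M SOK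
  rw0 rw1 rw2 mxRw mulM addM subM invM invOK gM uM zM cst row0 vo1 voB vo0 vo1' vo2 vo3 vo4 r3x Pr
  LT2 CellT Vx chkDT chkPcT)
open Pool.Agent.Helper6.MONO (Kp SbP Rb Bm VV)
open Pool.Agent.Helper21.KRN
open Pool.Agent.Helper21.KTE
open Complex ComplexConjugate

/-! ### kernel functions -/

/-- the weight up to the width of the interval -/
def qt {α : Type} (A : Alg α) (ra rb : Nat) (S : Mo α) : Qd α :=
  mkQd A (cst A ra (Nat.sub rb ra))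
    (cst A (pd ra ra) (Nat.add (Nat.mul (nat_lit 8) (Nat.sub rb ra)) (nat_lit 1))) S

/-- a thin interval -/
def thin (ra rb : Nat) : Bool := Nat.ble rb (Nat.add ra (nat_lit 16777216))

/-- the blocks of a run -/
def runsX {α v : Type} (X : XM α v) (i : RI) (s : List SE) (t : List (BT v)) : List (BT v) :=
  RI.rec (motive := fun _ => List (BT v)) (fun M m => ⟨xVO X M m, s⟩ :: t)
    (fun e => ⟨vo1 X.Q (qm2 X.Q.A (R1M X.Q.A (kE X e)) (SM X.Q.A (kE X e))), s⟩ :: t)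
    (fun e => ⟨vo1 X.Q (qm3 X.Q.A (SM X.Q.A (kE X e))), s⟩ :: t)
    (fun e ra rb => Bool.rec (motive := fun _ => List (BT v))
      (fam5 X.Q (qf X.Q.A ra (pd ra ra) (SM X.Q.A (kE X e)))
        (qf X.Q.A (Nat.div (Nat.add ra rb) (nat_lit 2)) (pd ra rb) (SM X.Q.A (kE X e)))
        (qf X.Q.A rb (pd rb rb) (SM X.Q.A (kE X e))) s t)
      (⟨vo1 X.Q (qt X.Q.A ra rb (SM X.Q.A (kE X e))), s⟩ :: t) (thin ra rb)) i

def xBX {α v : Type} (X : XM α v) (l : List BI) : List (BT v) :=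
  List.rec (motive := fun _ => List (BT v)) [] (fun x _ ih => runsX X x.id x.s ih) l
def xPX {α v : Type} (X : XM α v) (l : List Pool.Agent.Helper21.KRN.PI) : List (Pool.Agent.Helper86.CT.PT v) :=
  List.rec (motive := fun _ => List (Pool.Agent.Helper86.CT.PT v)) [] (fun x _ ih => ⟨x.k, xBX X x.b⟩ :: ih) l

/-- **THE PROGRAM OF THE KERNEL CHECKER, thin runs as one block** -/
def expandX {α v : Type} (X : XM α v) (G : TProg) : Prog v :=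
  ⟨xPX X G.e0, xPX X G.e1, xPX X G.e2, xPX X G.e3, xPX X G.e4, xPX X G.e5,
    xPX X G.o0, xPX X G.o1, xPX X G.o2, xPX X G.o3, xPX X G.o4, xPX X G.o5,
    G.r0, G.r1, G.r2, G.r3, G.r4, G.r5, G.l0, G.l1, G.l2, G.l3, G.l4, G.l5⟩

/-! ### soundness -/

variable {D : ℕ} {t : ℕ → ℝ}

section

variable {α β p v γ : Type} {lC : α → Vt D → Cx} {lf : α → Vt D → ℂ}
  {mf : (ℕ → ℝ) → β → (ℕ → ℝ) → ℝ} {lp : p → Vt D → P9} {lv : v → Vt D → VR}
  {lg : γ → Vt D → ℕ} {Sa : α → List Bool → Prop} {Sp : p → List Bool → Prop}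
  {Sv : v → List Bool → Prop} {Sg : γ → List Bool → Prop} {M : Mc α β p v γ}

theorem qt_ok {A : Alg α} (hA : AOK D lf A) (hP : Pool.Agent.Helper90.KMT.PT D t) {R s : ℝ}
    {ra rb : ℕ} {S : Mo α} (ha : (ra : ℝ) ≤ UU * R) (hb : UU * R ≤ (rb : ℝ)) (hrb : rb ≤ 2 ^ 50)
    (hS : TOK D lf t (s : ℂ) S) :
    QOK D lf t R (R ^ 2 - s) (R ^ 2 + s) (2 * R * s) (qt A ra rb S) := by
  have hU := UU_pos
  have hUU : UU = 2 ^ 48 := by unfold UU; norm_num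
  have hab' : (ra : ℝ) ≤ rb := ha.trans hb
  have hab : ra ≤ rb := by exact_mod_cast hab'
  have hrb' : (rb : ℝ) ≤ 2 ^ 50 := by exact_mod_cast hrb
  have hn : ((Nat.sub rb ra : ℕ) : ℝ) = rb - ra := Nat.cast_sub hab
  have k : ∀ {x : ℝ} {c n : ℕ}, |UU * x - c| ≤ n →
      TOK D lf t (x : ℂ) (Pool.Agent.Helper86.CT.cst A c n) := by
    intro x c n h
    refine TOK.cst hA hP c n ?_
    have e : (UU : ℂ) * x - c = ((UU * x - c : ℝ) : ℂ) := by push_cast; rfl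
    rw [e, Complex.norm_real, Real.norm_eq_abs]
    exact h
  have ra0 : (0 : ℝ) ≤ ra := Nat.cast_nonneg _
  have h1 : |UU * R - ra| ≤ ((Nat.sub rb ra : ℕ) : ℝ) := by
    rw [hn, abs_le]
    constructor <;> linarith
  have h2 : |UU * R ^ 2 - ((pd ra ra : ℕ) : ℝ)| ≤
      ((Nat.add (Nat.mul (nat_lit 8) (Nat.sub rb ra)) (nat_lit 1) : ℕ) : ℝ) := by
    have e0 : ((Nat.add (Nat.mul (nat_lit 8) (Nat.sub rb ra)) (nat_lit 1) : ℕ) : ℝ) =
        8 * ((Nat.sub rb ra : ℕ) : ℝ) + 1 := by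
      have : (Nat.add (Nat.mul (nat_lit 8) (Nat.sub rb ra)) (nat_lit 1) : ℕ) =
        8 * Nat.sub rb ra + 1 := rfl
      rw [this]; push_cast; ring
    rw [e0, hn]
    have e1 : |UU * ((ra : ℝ) / UU) ^ 2 - ((pd ra ra : ℕ) : ℝ)| ≤ 1 := by
      refine nat_div_err (ra * ra) (by norm_num) ?_
      have e : UU * ((ra : ℝ) / UU) ^ 2 = (ra : ℝ) * ra / UU := by field_simp
      rw [e, hUU, Nat.cast_mul]
      norm_num
    have e2 : |UU * R ^ 2 - UU * ((ra : ℝ) / UU) ^ 2| ≤ 8 * ((rb : ℝ) - ra) := by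
      have e3 : UU * R ^ 2 - UU * ((ra : ℝ) / UU) ^ 2 =
          (UU * R - ra) * (R + ra / UU) := by
        field_simp
        ring
      rw [e3, abs_mul]
      have r4 : R ≤ 4 := by
        rw [hUU] at hb
        nlinarith
      have r0 : 0 ≤ R := by
        by_contra hc
        push Not at hc
        have : UU * R < 0 := mul_neg_of_pos_of_neg hU hc
        linarith
      have q0 : (ra : ℝ) / UU ≤ 4 := by
        rw [div_le_iff₀ hU, hUU]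
        nlinarith
      have q1 : 0 ≤ (ra : ℝ) / UU := div_nonneg ra0 hU.le
      have a1 : |UU * R - ra| ≤ (rb : ℝ) - ra := by
        rw [abs_le]
        constructor <;> linarith
      have a2 : |R + ra / UU| ≤ 8 := by
        rw [abs_le]
        constructor <;> linarith
      calc |UU * R - ra| * |R + ra / UU| ≤ ((rb : ℝ) - ra) * 8 :=
            mul_le_mul a1 a2 (abs_nonneg _) (by linarith)
        _ = 8 * ((rb : ℝ) - ra) := by ring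
    have e4 : UU * R ^ 2 - ((pd ra ra : ℕ) : ℝ) = (UU * R ^ 2 - UU * ((ra : ℝ) / UU) ^ 2) +
        (UU * ((ra : ℝ) / UU) ^ 2 - ((pd ra ra : ℕ) : ℝ)) := by ring
    rw [e4]
    exact (abs_add_le _ _).trans (add_le_add e2 e1)
  have t2 : TOK D lf t ((R ^ 2 : ℝ) : ℂ) (Pool.Agent.Helper86.CT.cst A (pd ra ra)
      (Nat.add (Nat.mul (nat_lit 8) (Nat.sub rb ra)) (nat_lit 1))) := k h2
  exact QOK.mk' hA hP (k h1) t2 hS

/-- the runs of a thin interval -/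
theorem lrx_pos {Q : Mq α v} {cv : VR → v} (hM : MX D lC lf mf lp lv lg Sa Sp Sv Sg M Q cv)
    (ht : Pool.Agent.Helper90.KMT.PT D t) {K : Hm ℝ} {P : KM α} (hK : KMK D lf t K P)
    {KT LT : β} {b : List (BT v)} (h : chP M KT LT b P = true) {k : ℝ} {Ke : Mo α}
    (hk : TK D lf Sa t Q k Ke) {R : ℝ} {ra rb : ℕ} (ha : (ra : ℝ) ≤ UU * R)
    (hb : UU * R ≤ (rb : ℝ)) (hrb : rb ≤ 2 ^ 50) {s : List SE}
    (hB : (⟨vo1 Q (qt Q.A ra rb (SM Q.A Ke)), s⟩ : BT v) ∈ b) {y : SE} (hy : y ∈ s)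
    {z : Fin 3 → ℂ} (hz : 0 < ev (KTab mf KT y.k t) z) :
    0 < ev K ((Bm k R).mulVec z) := by
  obtain ⟨l, hs, hl⟩ := hk.s
  obtain ⟨m1, m2, hk0⟩ := SM_ok hM.aq ht hk.m (kC_t hk.c).1
  have hab' : (ra : ℝ) ≤ rb := ha.trans hb
  have hab : ra ≤ rb := by exact_mod_cast hab'
  have hra : ra ≤ 2 ^ 50 := hab.trans hrb
  have hrr : pd ra ra ≤ 2 ^ 52 := by
    have h1 : ra * ra ≤ 2 ^ 50 * 2 ^ 50 := Nat.mul_le_mul hra hra
    have h2 : ra * ra / 2 ^ 48 ≤ 2 ^ 50 * 2 ^ 50 / 2 ^ 48 := Nat.div_le_div_right h1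
    refine (show pd ra ra = ra * ra / 2 ^ 48 from rfl).le.trans (h2.trans ?_)
    norm_num
  have g : QG lC Sa Q.A l (qt Q.A ra rb (SM Q.A Ke)) := by
    obtain ⟨_, b1, b2⟩ := kC_t hk.c
    have s1 := SM_sh hM.sq hs
    have l2 : LB lf (SM Q.A Ke).v (2 ^ 50) := fun u => (hM.aq.mag _ u).trans b2
    have hr' : (ra : ℝ) ≤ 2 ^ 50 := by exact_mod_cast hra
    have hrr' : ((pd ra ra : ℕ) : ℝ) ≤ 2 ^ 52 := by exact_mod_cast hrr
    exact qd_good hM.k.cl hM.aq hM.sq hM.dq hM.f ht (r := cst Q.A ra (Nat.sub rb ra))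
      (rr := cst Q.A (pd ra ra) (Nat.add (Nat.mul (nat_lit 8) (Nat.sub rb ra)) (nat_lit 1)))
      (hM.sq.cs _) (hM.sq.cs _) s1 rfl (Or.inr rfl) (Or.inr rfl) (hM.sq.len hs) hl
      ((LB.cs hM.aq ra _).mono hr') ((LB.cs hM.aq _ _).mono (hrr'.trans (by norm_num))) l2
  have q := qt_ok hM.aq ht ha hb hrb m1
  have h1 := vo1_pos hM.k hM.q hM.aq hM.f hM.n ht hK h hl g q hB hy hz
  rw [yW_Bm k R hk0] at h1
  exact h1

theorem xBX_mem {X : XM α v} {l : List BI} {y : BI} (hy : y ∈ l) {B : BT v}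
    (hB : B ∈ runsX X y.id y.s []) : B ∈ xBX X l := by
  have key : ∀ (i : RI) (s : List SE) (T : List (BT v)), ∀ B, B ∈ runsX X i s T ↔
      (B ∈ runsX X i s [] ∨ B ∈ T) := by
    intro i s T B
    cases i with
    | ex M m => simp [runsX]
    | t2 e => simp [runsX]
    | t3 e => simp [runsX]
    | lr e ra rb =>
      simp only [runsX]
      cases thin ra rb with
      | false =>
        simp only [fam5, List.mem_cons, List.not_mem_nil, or_false]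
        tauto
      | true => simp
  induction l with
  | nil => cases hy
  | cons x l ih =>
    have e : xBX X (x :: l) = runsX X x.id x.s (xBX X l) := rfl
    rw [e, key]
    rcases List.mem_cons.1 hy with rfl | hy
    · exact Or.inl hB
    · exact Or.inr (ih hy)

/-- **ONE BLOCK OF A TYPED PROGRAM** -/
theorem blkX_pos {X : XM α v} (hM : MX D lC lf mf lp lv lg Sa Sp Sv Sg M X.Q X.c)
    (ht : Pool.Agent.Helper90.KMT.PT D t) {κ : Fin 3 → ℝ} (hX : XG D lf Sa t X κ)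
    {K : Hm ℝ} {P : KM α} (hK : KMK D lf t K P) {KT LT : β} {b : List BI}
    (h : chP M KT LT (xBX X b) P = true) {y : BI} (hy : y ∈ b) {u : SE} (hu : u ∈ y.s)
    {k R : ℝ} (hR : RunIn κ y.id k R) {z : Fin 3 → ℂ} (hz : 0 < ev (KTab mf KT u.k t) z) :
    0 < ev K ((Bm k R).mulVec z) := by
  have hmem : ∀ B : BT v, B ∈ runsX X y.id y.s [] → B ∈ xBX X b := fun B hB => xBX_mem hy hB
  obtain ⟨id, s⟩ := y
  cases id with
  | ex Mn m =>
    obtain ⟨h3, h9, h2, hm, rfl, rfl⟩ := hR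
    have hj : 1 ≤ m - 1 := by omega
    have hjM : m - 1 < Mn := by omega
    refine ex_pos hM.k hM.c hM.n ht hK h h3 h9 hj hjM (V := xVO X Mn m) ?_ hX.r hX.r hX.r rfl rfl rfl
      (s := s) (hmem _ (List.mem_cons_self ..)) hu hz
    show X.c (exV Mn (m - 1)) = X.c (VV Mn (m - 1))
    rw [exV_eq Mn (m - 1) h3 h9 hj hjM]
  | t2 e =>
    obtain ⟨rfl, rfl⟩ := hR
    exact t2_pos hM ht hK h (hX.tk e) (s := s) (hmem _ (List.mem_cons_self ..)) hu hz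
  | t3 e =>
    obtain ⟨rfl, rfl⟩ := hR
    exact t3_pos hM ht hK h (hX.tk e) (s := s) (hmem _ (List.mem_cons_self ..)) hu hz
  | lr e ra rb =>
    obtain ⟨rfl, ha, hb, hrb⟩ := hR
    have hU : UU = 2 ^ 48 := by unfold UU; norm_num
    rw [← hU] at ha hb
    cases hth : thin ra rb with
    | true =>
      refine lrx_pos hM ht hK h (hX.tk e) ha hb hrb (s := s) (hmem _ ?_) hu hz
      simp only [runsX, hth]
      exact List.mem_cons_self ..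
    | false =>
      refine lr_pos hM ht hK h (hX.tk e) ha hb hrb (s := s)
        (X := qf X.Q.A ra (pd ra ra) (SM X.Q.A (kE X e)))
        (Y := qf X.Q.A (Nat.div (Nat.add ra rb) (nat_lit 2)) (pd ra rb) (SM X.Q.A (kE X e)))
        (Z' := qf X.Q.A rb (pd rb rb) (SM X.Q.A (kE X e))) rfl rfl rfl
        (hmem _ ?_) (hmem _ ?_) (hmem _ ?_) (hmem _ ?_) (hmem _ ?_) hu hz <;>
        simp only [runsX, hth]
      · exact List.mem_cons_self ..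
      · exact List.mem_cons_of_mem _ (List.mem_cons_self ..)
      · exact List.mem_cons_of_mem _ (List.mem_cons_of_mem _ (List.mem_cons_self ..))
      · exact List.mem_cons_of_mem _ (List.mem_cons_of_mem _ (List.mem_cons_of_mem _
          (List.mem_cons_self ..)))
      · exact List.mem_cons_of_mem _ (List.mem_cons_of_mem _ (List.mem_cons_of_mem _
          (List.mem_cons_of_mem _ (List.mem_cons_self ..))))

theorem xPX_mem {X : XM α v} {l : List Pool.Agent.Helper21.KRN.PI} {x : Pool.Agent.Helper21.KRN.PI} (hx : x ∈ l) :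
    (⟨x.k, xBX X x.b⟩ : Pool.Agent.Helper86.CT.PT v) ∈ xPX X l := by
  induction l with
  | nil => cases hx
  | cons y l ih =>
    have e : xPX X (y :: l) = ⟨y.k, xBX X y.b⟩ :: xPX X l := rfl
    rw [e]
    rcases List.mem_cons.1 hx with rfl | hx
    · exact List.mem_cons_self ..
    · exact List.mem_cons_of_mem _ (ih hx)

/-- the blocks of an even list -/
theorem evenX_pos {X : XM α v} (hM : MX D lC lf mf lp lv lg Sa Sp Sv Sg M X.Q X.c)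
    (ht : Pool.Agent.Helper90.KMT.PT D t) {κ : Fin 3 → ℝ} (hX : XG D lf Sa t X κ) {KT LT : β}
    {o o' : ℂ} {c2 s : Mo α} {ps : List Pool.Agent.Helper21.KRN.PI} (hc : TOK D lf t o' c2) (hs : TOK D lf t o s)
    (hh : chE M KT LT (mkE M.A c2 s) (xPX X ps) = true) : ∀ x ∈ ps, ∀ y ∈ x.b, ∀ u ∈ y.s, ∀ k R,
    RunIn κ y.id k R → ∀ v, 0 < ev (KTab mf KT u.k t) v →
    0 < ev (CK (KTab mf KT x.k t) 0 o' (o * o')) ((Bm k R).mulVec v) := by
  intro x hx y hy u hu k R hR v hv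
  have h1 : chP M KT LT (xBX X x.b) (PE M.A (mkE M.A c2 s) (mkKM M.A M.U M.w KT x.k)) = true :=
    chE_mem hh ⟨x.k, xBX X x.b⟩ (xPX_mem hx)
  exact blkX_pos hM ht hX (PE_ok hM.a ht (mkE_ok hM.a ht hc hs) (mkKM_ok hM.a hM.u hM.w KT x.k)) h1
    hy hu hR hv

/-- the blocks of an odd list -/
theorem oddX_pos {X : XM α v} (hM : MX D lC lf mf lp lv lg Sa Sp Sv Sg M X.Q X.c)
    (ht : Pool.Agent.Helper90.KMT.PT D t) {κ : Fin 3 → ℝ} (hX : XG D lf Sa t X κ) {KT LT : β}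
    {o o' k' : ℂ} {c2 s h q ke : Mo α} {ps : List Pool.Agent.Helper21.KRN.PI} (hc : TOK D lf t o' c2)
    (hs : TOK D lf t o s) (hh : TOK D lf t (k' / 2) h) (hq : TOK D lf t (k' / 4) q)
    (hke : TOK D lf t (k' ^ 2 / (4 * (2 + k'))) ke)
    (hH : chO M KT LT (mkO M.A c2 s h q ke) (xPX X ps) = true) : ∀ x ∈ ps, ∀ y ∈ x.b, ∀ u ∈ y.s,
    ∀ k R, RunIn κ y.id k R → ∀ v, 0 < ev (KTab mf KT u.k t) v →
    0 < ev (CK (KTab mf KT x.k t) (k' * o / 2 - k' ^ 2 / (4 * (2 + k'))) o'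
      (o' * (k' / 2) * (1 / 2 - o))) ((Bm k R).mulVec v) := by
  intro x hx y hy u hu k R hR v hv
  have h1 : chP M KT LT (xBX X x.b) (PO M.A (mkO M.A c2 s h q ke)
      (mkKM M.A M.U M.w KT x.k)) = true := chO_mem hH ⟨x.k, xBX X x.b⟩ (xPX_mem hx)
  exact blkX_pos hM ht hX (PO_ok hM.a ht (mkO_ok hM.a ht hc hs hh hq hke)
    (mkKM_ok hM.a hM.u hM.w KT x.k)) h1 hy hu hR hv

/-- THE BLOCKS WITH GIVEN `om` -/
theorem chOmX_sound {X : XM α v} (hM : MX D lC lf mf lp lv lg Sa Sp Sv Sg M X.Q X.c)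
    (ht : Pool.Agent.Helper90.KMT.PT D t) {κ : Fin 3 → ℝ} (hX : XG D lf Sa t X κ)
    {S : Pool.Agent.Helper86.CT.Sv p} (hS : SVK D lp S) {C : Cls α} (hC : CLT D lf t (cκ κ) C)
    {z : ℂ} {m0 m1 m2 m3 m4 m5 : Mo α} (hO : OMT D lf t (cκ κ) z m0 m1 m2 m3 m4 m5)
    {KT LT : β} {G : TProg} (H : chOm M S C KT LT (expandX X G) m0 m1 m2 m3 m4 m5 = true) :
    KResT (fun k => KTab mf KT k t) κ z G := by
  obtain ⟨e0, H⟩ := andB_t H
  obtain ⟨e1, H⟩ := andB_t H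
  obtain ⟨e2, H⟩ := andB_t H
  obtain ⟨e3, H⟩ := andB_t H
  obtain ⟨e4, H⟩ := andB_t H
  obtain ⟨e5, H⟩ := andB_t H
  obtain ⟨o0, H⟩ := andB_t H
  obtain ⟨o1, H⟩ := andB_t H
  obtain ⟨o2, H⟩ := andB_t H
  obtain ⟨o3, H⟩ := andB_t H
  obtain ⟨o4, H⟩ := andB_t H
  obtain ⟨o5, H⟩ := andB_t H
  obtain ⟨r0, H⟩ := andB_t H
  obtain ⟨r1, H⟩ := andB_t H
  obtain ⟨r2, H⟩ := andB_t H
  obtain ⟨r3, H⟩ := andB_t H
  obtain ⟨r4, H⟩ := andB_t H
  obtain ⟨r5, H⟩ := andB_t H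
  obtain ⟨l0, H⟩ := andB_t H
  obtain ⟨l1, H⟩ := andB_t H
  obtain ⟨l2, H⟩ := andB_t H
  obtain ⟨l3, H⟩ := andB_t H
  obtain ⟨l4, l5⟩ := andB_t H
  refine ⟨?_, ?_, ?_, ?_⟩
  · intro i hi
    interval_cases i
    · exact evenX_pos hM ht hX hO.m0 hO.m3 e0
    · exact evenX_pos hM ht hX hO.m1 hO.m4 e1
    · exact evenX_pos hM ht hX hO.m2 hO.m5 e2
    · exact evenX_pos hM ht hX hO.m3 hO.m0 e3
    · exact evenX_pos hM ht hX hO.m4 hO.m1 e4
    · exact evenX_pos hM ht hX hO.m5 hO.m2 e5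
  · intro i hi
    interval_cases i
    · exact oddX_pos hM ht hX hO.m0 hO.m2 hC.h2 hC.q2 hC.e2 o0
    · exact oddX_pos hM ht hX hO.m1 hO.m0 hC.h0 hC.q0 hC.e0 o1
    · exact oddX_pos hM ht hX hO.m2 hO.m1 hC.h1 hC.q1 hC.e1 o2
    · exact oddX_pos hM ht hX hO.m3 hO.m4 hC.h0 hC.q0 hC.e0 o3
    · exact oddX_pos hM ht hX hO.m4 hO.m5 hC.h1 hC.q1 hC.e1 o4
    · exact oddX_pos hM ht hX hO.m5 hO.m3 hC.h2 hC.q2 hC.e2 o5
  · intro i hi
    interval_cases i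
    · exact refT_pos hM ht hS hO.m0 r0
    · exact refT_pos hM ht hS hO.m1 r1
    · exact refT_pos hM ht hS hO.m2 r2
    · exact refT_pos hM ht hS hO.m3 r3
    · exact refT_pos hM ht hS hO.m4 r4
    · exact refT_pos hM ht hS hO.m5 r5
  · intro i hi
    interval_cases i
    · exact refL_pos hM ht hS hO.m0 l0
    · exact refL_pos hM ht hS hO.m1 l1
    · exact refL_pos hM ht hS hO.m2 l2
    · exact refL_pos hM ht hS hO.m3 l3
    · exact refL_pos hM ht hS hO.m4 l4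
    · exact refL_pos hM ht hS hO.m5 l5

/-- **THE TEST OF A CELL AT A POINT** -/
theorem chCellX_sound {X : XM α v} (hM : MX D lC lf mf lp lv lg Sa Sp Sv Sg M X.Q X.c)
    (ht : Pool.Agent.Helper90.KMT.PT D t) {κ : Fin 3 → ℝ} (hX : XG D lf Sa t X κ)
    {S : Pool.Agent.Helper86.CT.Sv p} (hS : SVK D lp S) {C : Cls α} (hC : CLT D lf t (cκ κ) C)
    {z x : ℂ} (hz : z ≠ 0) (hx : z + z⁻¹ = x) (hi : (z⁻¹).im ≤ 0) {Xm : Mo α} {us : α}
    (hxm : Mod (wtT D t) (UU * x) (lf Xm.v) Xm.r)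
    (hxi : (avg (wtT D t) (lf Xm.v)).im = UU * x.im) (hx0 : ∀ v, 0 ≤ (lf Xm.v v).im)
    {m : ℕ} (hm : 0 < m) {KT LT : β} {G : TProg}
    (H : chCell M S C (expandX X G) Xm m us KT LT = true) :
    KResT (fun k => KTab mf KT k t) κ z G ∧ NZ (cκ κ) z ∧
      TOK D lf t z⁻¹ (uM M.A m Xm (Pool.Agent.Helper86.CT.mk M.A us (nat_lit 0))
        (Pool.Agent.Helper86.CT.mk M.A (M.A.sub Xm.v us) (nat_lit 0))) ∧
      TOK D lf t z (zM Xm (uM M.A m Xm (Pool.Agent.Helper86.CT.mk M.A us (nat_lit 0))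
        (Pool.Agent.Helper86.CT.mk M.A (M.A.sub Xm.v us) (nat_lit 0)))
        (Pool.Agent.Helper86.CT.mk M.A (M.A.sub Xm.v us) (nat_lit 0))) := by
  obtain ⟨hok, H⟩ := andB_t H
  obtain ⟨hu, hzm⟩ := TOK.z hM.a ht hz hx hi hxm hxi hx0 hm hM.t hok
  obtain ⟨b0, H⟩ := andB_t H
  obtain ⟨b1, H⟩ := andB_t H
  obtain ⟨b2, H⟩ := andB_t H
  obtain ⟨b3, H⟩ := andB_t H
  obtain ⟨b4, H⟩ := andB_t H
  obtain ⟨b5, H⟩ := andB_t H
  have hO := OMT.mk' hM.a ht hC hu hzm b0 b1 b2 b3 b4 b5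
  exact ⟨chOmX_sound hM ht hX hS hC hO H, ⟨hO.n0, hO.n1, hO.n2, hO.n3, hO.n4, hO.n5⟩, hu, hzm⟩

/-- **A CELL AT A POINT** -/
theorem cellX_pt {X : XM α v} (hM : MX D lC lf mf lp lv lg Sa Sp Sv Sg M X.Q X.c) {j : ℕ}
    {y : ℕ → ℕ → α} (hY : YLW D j lf y) {W : Vx β} (hW : WX D mf W)
    {S : Pool.Agent.Helper86.CT.Sv p} (hS : SVK D lp S)
    (ht : Pool.Agent.Helper90.KMT.PT D t) {κ : Fin 3 → ℝ} (hX : XG D lf Sa t X κ) {C : Cls α}
    (hC : CLT D lf t (cκ κ) C) {x0 : ℝ} {Xo : Mo α} (h0 : TOK D lf t (x0 : ℂ) Xo)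
    (h0r : ∀ v, (lf Xo.v v).im = 0) {c : CellT α β} (hm : 0 < c.m) {sl : List ℕ} {le : List LT2}
    (hs : W.al (fun _ s => sOKT le s) c.K c.S = true) {G : TProg}
    (H : chkDT M S W y C (expandX X G) Xo sl le c = true) {h : ℝ}
    (hh : 2 ^ 48 * h = (1 - t j) * c.ya + t j * c.yb) {z : ℂ} (hz : z ≠ 0)
    (hzx : z + z⁻¹ = (x0 : ℂ) + (h : ℂ) * I) (hui : (z⁻¹).im ≤ 0) :
    PtR (fun k => KTab mf c.K k t) κ z G sl le ∧
      TOK D lf t z⁻¹ (uM M.A c.m (xT M.A y Xo c) (Pool.Agent.Helper86.CT.mk M.A c.u (nat_lit 0))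
        (Pool.Agent.Helper86.CT.mk M.A (M.A.sub (xT M.A y Xo c).v c.u) (nat_lit 0))) ∧
      TOK D lf t z (zM (xT M.A y Xo c) (uM M.A c.m (xT M.A y Xo c)
        (Pool.Agent.Helper86.CT.mk M.A c.u (nat_lit 0))
        (Pool.Agent.Helper86.CT.mk M.A (M.A.sub (xT M.A y Xo c).v c.u) (nat_lit 0)))
        (Pool.Agent.Helper86.CT.mk M.A (M.A.sub (xT M.A y Xo c).v c.u) (nat_lit 0))) := by
  obtain ⟨e1, H⟩ := andB_t H
  obtain ⟨e2, e3⟩ := andB_t H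
  have hU : (UU : ℝ) = 2 ^ 48 := by unfold UU; norm_num
  have hav := hY.av c.ya c.yb t ht e1
  have hy : TOK D lf t ((h : ℂ) * I) (Pool.Agent.Helper86.CT.mk M.A (y c.ya c.yb) (nat_lit 0)) := by
    refine ⟨vt_mk hM.a _ _, ?_⟩
    show ‖(UU : ℂ) * ((h : ℂ) * I) - avg (wtT D t) (lf (y c.ya c.yb))‖ ≤ ((nat_lit 0 : ℕ) : ℝ)
    rw [hav, ← hh, hU]
    have e : ((2 ^ 48 : ℝ) : ℂ) * ((h : ℂ) * I) - ((2 ^ 48 * h : ℝ) : ℂ) * I = 0 := by
      push_cast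
      ring
    rw [e, norm_zero]
    simp
  have hx := h0.add hM.a hy
  have hlf : ∀ v, lf (addM M.A Xo (Pool.Agent.Helper86.CT.mk M.A (y c.ya c.yb) (nat_lit 0))).v v =
      lf Xo.v v + lf (y c.ya c.yb) v := fun v => hM.a.law.hadd _ _ v
  obtain ⟨g1, g2, g3, g4⟩ := chCellX_sound hM ht hX hS hC hz hzx hui hx.mod (by
    have e : lf (addM M.A Xo (Pool.Agent.Helper86.CT.mk M.A (y c.ya c.yb) (nat_lit 0))).v =
        fun v => lf Xo.v v + lf (y c.ya c.yb) v := funext hlf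
    rw [e, avg_add, Complex.add_im, hav, ← hh]
    have e2 : (avg (wtT D t) (lf Xo.v)).im = 0 := by
      rw [(avg_re (wtT D t) (lf Xo.v)).2]
      exact Finset.sum_eq_zero fun v _ => by rw [h0r v, mul_zero]
    have e3 : (((2 ^ 48 * h : ℝ) : ℂ) * I).im = 2 ^ 48 * h := by
      rw [Complex.im_ofReal_mul, Complex.I_im, mul_one]
    have e4 : ((x0 : ℂ) + (h : ℂ) * I).im = h := by
      rw [Complex.add_im, Complex.ofReal_im, Complex.im_ofReal_mul, Complex.I_im]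
      ring
    rw [e2, e3, e4, hU]
    ring) (fun v => by
      rw [hlf, Complex.add_im, h0r v, zero_add]
      exact hY.im _ _ v) hm e2
  exact ⟨⟨g1, g2, fun k hk => negD_KTab hW ht e3 hk, fun k => KTab_bd hW ht _ _,
    fun x hx k hk => slit_KTab hW ht e3 hs hx hk⟩, g3, g4⟩

end

section

variable {α β p v γ : Type} {lC : α → Vt (D + 1) → Cx} {lf : α → Vt (D + 1) → ℂ}
  {mf : (ℕ → ℝ) → β → (ℕ → ℝ) → ℝ} {lp : p → Vt (D + 1) → P9} {lv : v → Vt (D + 1) → VR}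
  {lg : γ → Vt (D + 1) → ℕ} {Sa : α → List Bool → Prop} {Sp : p → List Bool → Prop}
  {Sv : v → List Bool → Prop} {Sg : γ → List Bool → Prop} {M : Mc α β p v γ}
  {S : Pool.Agent.Helper86.CT.Sv p} {W : Vx β} {y : ℕ → ℕ → α} {qd : ℕ → Cx → Cx → Cx → α}
  {rt : α → Bool}

/-- **ONE CELL AT A POINT, with the parameter** -/
theorem chkDTX_pt {X : XM α v}
    (hZ : MZ D lC lf mf lp lv lg Sa Sp Sv Sg M X.Q X.c X.r S W y qd rt) {Xo : Mo α}
    {s0 s1 s2 : KS} {κ : Fin 3 → ℝ} {x0 : ℝ} (hC : CLD D lf M qd rt X Xo s0 s1 s2 κ x0)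
    {c : CellT α β} {sl : List ℕ} {le : List LT2} (hs : sideT W le c = true) {G : TProg}
    (H : chkDT M S W y (mkCls M.A X.k0 X.k1 X.k2) (expandX X G) Xo sl le c = true) {h : ℝ}
    (ha : (c.ya : ℝ) ≤ 2 ^ 48 * h) (hb : 2 ^ 48 * h ≤ (c.yb : ℝ)) {z : ℂ} (hz : z ≠ 0)
    (hzx : z + z⁻¹ = (x0 : ℂ) + (h : ℂ) * I) (hui : (z⁻¹).im ≤ 0) :
    ∃ t, Pool.Agent.Helper90.KMT.PT (D + 1) t ∧ PtR (fun k => KTab mf c.K k t) κ z G sl le ∧
      TOK (D + 1) lf t (κ 0 : ℂ) X.k0 ∧ TOK (D + 1) lf t (κ 1 : ℂ) X.k1 ∧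
      TOK (D + 1) lf t (κ 2 : ℂ) X.k2 ∧
      CLT (D + 1) lf t (cκ κ) (mkCls M.A X.k0 X.k1 X.k2) ∧
      TOK (D + 1) lf t z⁻¹ (uM M.A c.m (xT M.A y Xo c)
        (Pool.Agent.Helper86.CT.mk M.A c.u (nat_lit 0))
        (Pool.Agent.Helper86.CT.mk M.A (M.A.sub (xT M.A y Xo c).v c.u) (nat_lit 0))) ∧
      TOK (D + 1) lf t z (zM (xT M.A y Xo c) (uM M.A c.m (xT M.A y Xo c)
        (Pool.Agent.Helper86.CT.mk M.A c.u (nat_lit 0))
        (Pool.Agent.Helper86.CT.mk M.A (M.A.sub (xT M.A y Xo c).v c.u) (nat_lit 0)))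
        (Pool.Agent.Helper86.CT.mk M.A (M.A.sub (xT M.A y Xo c).v c.u) (nat_lit 0))) := by
  obtain ⟨u, hu0, hu1, hu⟩ := exists_par ha hb
  obtain ⟨t, ht, hj, q0, q1, q2⟩ := exists_cube hC.D3 hC.wf hC.o0 hC.o1 hC.o2 hu0 hu1
  have hw := hC.wf
  unfold wfK at hw
  simp only [Bool.and_eq_true] at hw
  obtain ⟨w0, w1, w2, -⟩ := hw
  obtain ⟨k0, z0⟩ := KS.tok hZ ht w0 q0
  obtain ⟨k1, z1⟩ := KS.tok hZ ht w1 q1
  obtain ⟨k2, z2⟩ := KS.tok hZ ht w2 q2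
  rw [← hC.e0] at k0 z0
  rw [← hC.e1] at k1 z1
  rw [← hC.e2] at k2 z2
  obtain ⟨c0, hx⟩ := andB_t hC.xk
  obtain ⟨c1, c2⟩ := andB_t hx
  have hXG : XG (D + 1) lf Sa t X κ := ⟨hZ.r, ⟨k0, z0, c0⟩, ⟨k1, z1, c1⟩, ⟨k2, z2, c2⟩⟩
  have hCL : CLT (D + 1) lf t (cκ κ) (mkCls M.A X.k0 X.k1 X.k2) :=
    CLT.mk' hZ.m.a ht k0 k1 k2 hC.cl
  unfold sideT at hs
  rw [Bool.and_eq_true] at hs
  obtain ⟨g1, g2, g3⟩ := cellX_pt hZ.m hZ.y hZ.w hZ.s ht hXG hCL (hC.x0 t ht k0 k1 k2)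
    (hZ.t _ hC.rt) (Nat.le_of_ble_eq_true hs.1) hs.2 H (h := h) (by rw [hj]; exact hu) hz hzx hui
  exact ⟨t, ht, g1, k0, k1, k2, hCL, g2, g3⟩

/-- **A CHAIN OF CELLS AT A POINT** -/
theorem clsX_pt {X : XM α v}
    (hZ : MZ D lC lf mf lp lv lg Sa Sp Sv Sg M X.Q X.c X.r S W y qd rt) {Xo : Mo α}
    {s0 s1 s2 : KS} {κ : Fin 3 → ℝ} {x0 : ℝ} (hC : CLD D lf M qd rt X Xo s0 s1 s2 κ x0)
    {l : List (CellT α β)} (hl : l ≠ []) {sl : List ℕ} {le : List LT2}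
    (hs : l.all (sideT W le) = true) {G : TProg} {a e : ℕ}
    (H : chkPcT M S W y (mkCls M.A X.k0 X.k1 X.k2) (expandX X G) Xo sl le e l a = true) {h : ℝ}
    (ha : (a : ℝ) ≤ 2 ^ 48 * h) (hb : 2 ^ 48 * h ≤ (e : ℝ)) {z : ℂ} (hz : z ≠ 0)
    (hzx : z + z⁻¹ = (x0 : ℂ) + (h : ℂ) * I) (hui : (z⁻¹).im ≤ 0) :
    ∃ K, PtR K κ z G sl le := by
  rw [List.all_eq_true] at hs
  obtain ⟨c, hc, h1, h2, h3⟩ := chain_cell' hl H ha hb
  obtain ⟨t, -, g, -⟩ := chkDTX_pt hZ hC (hs c hc) h1 h2 h3 hz hzx hui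
  exact ⟨_, g⟩

end

end Pool.Agent.Helper39.XP
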